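import Pool.Agent.L7h67.WB.Stm

/-!
# Project WB, parts PAIR and COUNT
-/

set_option autoImplicit false

namespace Pool.Agent.L7h89.WB

open Finset Pool.Agent.L7h67.WB

/-- a finite set of natural numbers of small diameter -/
lemma card_le_diam (S : Finset ℕ) (D : ℝ) (hD : 0 ≤ D)
    (h : ∀ a ∈ S, ∀ b ∈ S, a ≤ b → (b : ℝ) - a ≤ D) : (#S : ℝ) ≤ D + 1 := by
  rcases S.eq_empty_or_nonempty with rfl | hS
  · simp
    linarith
  · have h1 := h _ (S.min'_mem hS) _ (S.max'_mem hS) (S.min'_le _ (S.max'_mem hS))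
    have h2 : S ⊆ Icc (S.min' hS) (S.max' hS) := fun x hx =>
      mem_Icc.2 ⟨S.min'_le _ hx, S.le_max' _ hx⟩
    have h3 := card_le_card h2
    rw [Nat.card_Icc] at h3
    have h4 : S.min' hS ≤ S.max' hS := S.min'_le _ (S.max'_mem hS)
    have h5 : (#S : ℝ) ≤ ((S.max' hS + 1 - S.min' hS : ℕ) : ℝ) := by exact_mod_cast h3
    rw [Nat.cast_sub (by omega)] at h5
    push_cast at h5
    linarith

/-- fibres -/
lemma card_fib {α β : Type*} [DecidableEq β] (X : Finset α) (f : α → β) (N : ℝ)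
    (h : ∀ b ∈ X.image f, (#{x ∈ X | f x = b} : ℝ) ≤ N) : (#X : ℝ) ≤ #(X.image f) * N := by
  rw [card_eq_sum_card_image f X]
  push_cast
  calc ∑ b ∈ X.image f, (#{x ∈ X | f x = b} : ℝ) ≤ ∑ b ∈ X.image f, N := sum_le_sum h
    _ = _ := by rw [sum_const, nsmul_eq_mul]

lemma pow_split (k : ℕ) (hk : 2 ≤ k) (Q : ℝ) : Q ^ (k - 1) = Q * Q ^ (k - 2) := by
  rw [← pow_succ']
  congr 1
  omega

/-- **PAIR** -/
theorem s_PAIR : S_PAIR := by
  classical
  intro k Φ Φ1 Φ2 hF hk R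
  obtain ⟨-, -, hF⟩ := hF
  obtain ⟨c, C, Q0, γ, hc, hC, hQ0, hF⟩ := hF R
  set K1 : ℝ := 1 + 2 / c with hK1
  set K2 : ℝ := 1 + 4 / c + 2 * |γ| / c with hK2
  have hK11 : 1 ≤ K1 := by
    have : 0 ≤ 2 / c := by positivity
    linarith
  have hK21 : 1 ≤ K2 := by
    have : 0 ≤ 4 / c := by positivity
    have : 0 ≤ 2 * |γ| / c := by positivity
    linarith
  refine ⟨165 * K1 * K2, Q0, ?_, hQ0, ?_⟩
  · nlinarith
  intro θ hθ Q hQ V T c1 c2 hV hT X hX hX2
  obtain ⟨-, hmono, hneg, hpos⟩ := hF θ hθ Q hQ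
  have hQ1 : 1 ≤ Q := hQ0.trans hQ
  have hQp : 0 < Q := by linarith
  set A : ℝ := V / Q ^ (k - 1) with hA
  set B : ℝ := T / Q ^ (k - 2) with hB
  have hA0 : 0 ≤ A := by positivity
  have hB0 : 0 ≤ B := by positivity
  have hcQ : 0 < c * Q ^ (k - 1) := by positivity
  have eA : 2 * V / (c * Q ^ (k - 1)) = 2 / c * A := by
    rw [hA]
    field_simp
  -- the fibres over the first coordinate
  have hfib : ∀ u ∈ X.image Prod.fst, (#{x ∈ X | x.1 = u} : ℝ) ≤ K1 * (1 + A) := by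
    intro u _
    have h1 : #{x ∈ X | x.1 = u} = #({x ∈ X | x.1 = u}.image Prod.snd) := by
      rw [card_image_of_injOn]
      rintro ⟨a, b⟩ hab ⟨a', b'⟩ hab' h
      simp only [coe_filter, Set.mem_ofPred_eq] at hab hab'
      obtain ⟨-, rfl⟩ := hab
      obtain ⟨-, rfl⟩ := hab'
      dsimp only at h
      rw [h]
    rw [h1]
    have h2 : (#({x ∈ X | x.1 = u}.image Prod.snd) : ℝ) ≤ 2 * V / (c * Q ^ (k - 1)) + 1 := by
      refine card_le_diam _ _ (by positivity) ?_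
      intro a ha b hb hab
      obtain ⟨⟨a1, a2⟩, ha', rfl⟩ := mem_image.1 ha
      obtain ⟨⟨b1, b2⟩, hb', rfl⟩ := mem_image.1 hb
      rw [mem_filter] at ha' hb'
      obtain ⟨ha', rfl⟩ := ha'
      obtain ⟨hb', hb1⟩ := hb'
      dsimp only at hab hb1 ⊢
      subst hb1
      obtain ⟨xa1, xa2, xa3, xa4⟩ := hX _ ha'
      obtain ⟨xb1, xb2, xb3, xb4⟩ := hX _ hb'
      have va := (hX2 _ ha').1
      have vb := (hX2 _ hb').1
      dsimp only at xa3 xa4 xb3 xb4 va vb
      have hab' : (a2 : ℝ) ≤ b2 := by exact_mod_cast hab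
      have h3 := hmono a2 b2 (by linarith) hab' xb4
      rw [le_div_iff₀ hcQ]
      rw [abs_le] at va vb
      linarith
    rw [eA] at h2
    refine h2.trans ?_
    rw [hK1]
    have : 0 ≤ 2 / c := by positivity
    nlinarith
  -- the first coordinates
  have himg : (#(X.image Prod.fst) : ℝ) ≤ K2 * (1 + A + B) := by
    have h1 : (#(X.image Prod.fst) : ℝ) ≤
        (2 * V + 2 * |γ| * Q * T) / (c * Q ^ (k - 1)) + 1 := by
      refine card_le_diam _ _ (by positivity) ?_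
      intro a ha b hb hab
      obtain ⟨⟨a1, a2⟩, ha', rfl⟩ := mem_image.1 ha
      obtain ⟨⟨b1, b2⟩, hb', rfl⟩ := mem_image.1 hb
      dsimp only at hab ⊢
      obtain ⟨xa1, xa2, xa3, xa4⟩ := hX _ ha'
      obtain ⟨xb1, xb2, xb3, xb4⟩ := hX _ hb'
      obtain ⟨va, ta⟩ := hX2 _ ha'
      obtain ⟨vb, tb⟩ := hX2 _ hb'
      dsimp only at xa1 xa2 xa3 xa4 xb1 xb2 xb3 xb4 va vb ta tb
      have hab' : (a1 : ℝ) ≤ b1 := by exact_mod_cast hab
      rw [le_div_iff₀ hcQ]
      rw [abs_le] at va vb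
      have hn : 0 ≤ 2 * |γ| * Q * T := by positivity
      rcases le_total (a2 : ℝ) b2 with h | h
      · have h2 := hmono a1 b1 xa1 hab' (by linarith)
        have h3 := hmono a2 b2 (by linarith) h xb4
        have h4 : 0 ≤ c * Q ^ (k - 1) * ((b2 : ℝ) - a2) := mul_nonneg hcQ.le (by linarith)
        linarith
      · have h2 := hneg a1 b1 xa1 hab' xb2
        have h3 := hpos b2 a2 xb3 h xa4
        have h4 : 0 ≤ c * Q ^ (k - 1) * ((a2 : ℝ) - b2) := mul_nonneg hcQ.le (by linarith)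
        have h5 : |γ * Q * ((Φ1 θ b1 + Φ1 θ b2) - (Φ1 θ a1 + Φ1 θ a2))| ≤ |γ| * Q * (2 * T) := by
          rw [abs_mul, abs_mul, abs_of_pos hQp]
          refine mul_le_mul_of_nonneg_left ?_ (by positivity)
          rw [abs_le] at ta tb ⊢
          constructor <;> linarith
        rw [abs_le] at h5
        nlinarith
    have h2 : (2 * V + 2 * |γ| * Q * T) / (c * Q ^ (k - 1)) = 2 / c * A + 2 * |γ| / c * B := by
      rw [hA, hB, pow_split k hk]
      field_simp
    rw [h2] at h1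
    refine h1.trans ?_
    rw [hK2]
    have h3 : 0 ≤ 4 / c := by positivity
    have h4 : 0 ≤ 2 * |γ| / c := by positivity
    have h5 : 2 / c ≤ 4 / c := by gcongr; norm_num
    nlinarith [mul_nonneg h3 hA0, mul_nonneg h4 hA0, mul_nonneg h3 hB0, mul_nonneg h4 hB0,
      mul_le_mul_of_nonneg_right h5 hA0]
  -- the number of the first coordinates, trivially
  have himg2 : (#(X.image Prod.fst) : ℝ) ≤ 5 * Q := by
    have h1 : (#(X.image Prod.fst) : ℝ) ≤ (4 * Q - Q) + 1 := by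
      refine card_le_diam _ _ (by linarith) ?_
      intro a ha b hb hab
      obtain ⟨⟨a1, a2⟩, ha', rfl⟩ := mem_image.1 ha
      obtain ⟨⟨b1, b2⟩, hb', rfl⟩ := mem_image.1 hb
      have h2 := (hX _ ha').1
      have h3 := (hX _ hb').2.1
      dsimp only at h2 h3 ⊢
      linarith
    linarith
  have hfib2 : ∀ u ∈ X.image Prod.fst, (#{x ∈ X | x.1 = u} : ℝ) ≤ 33 * Q := by
    intro u _
    have h1 : #{x ∈ X | x.1 = u} = #({x ∈ X | x.1 = u}.image Prod.snd) := by
      rw [card_image_of_injOn]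
      rintro ⟨a, b⟩ hab ⟨a', b'⟩ hab' h
      simp only [coe_filter, Set.mem_ofPred_eq] at hab hab'
      obtain ⟨-, rfl⟩ := hab
      obtain ⟨-, rfl⟩ := hab'
      dsimp only at h
      rw [h]
    rw [h1]
    have h2 : (#({x ∈ X | x.1 = u}.image Prod.snd) : ℝ) ≤ (32 * Q - 8 * Q) + 1 := by
      refine card_le_diam _ _ (by linarith) ?_
      intro a ha b hb hab
      obtain ⟨⟨a1, a2⟩, ha', rfl⟩ := mem_image.1 ha
      obtain ⟨⟨b1, b2⟩, hb', rfl⟩ := mem_image.1 hb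
      have h3 := (hX _ (mem_filter.1 ha').1).2.2.1
      have h4 := (hX _ (mem_filter.1 hb').1).2.2.2
      dsimp only at h3 h4 ⊢
      linarith
    linarith
  have hcard0 : (0 : ℝ) ≤ #(X.image Prod.fst) := Nat.cast_nonneg _
  have hKA : 0 ≤ K1 * (1 + A) := mul_nonneg (by linarith) (by linarith)
  have b1 : (#X : ℝ) ≤ 165 * Q ^ 2 := by
    have h1 := card_fib X Prod.fst _ hfib2
    have h2 := mul_le_mul_of_nonneg_right himg2 (by positivity : 0 ≤ 33 * Q)
    linarith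
  have b2 : (#X : ℝ) ≤ 5 * K1 * (Q * (1 + A)) := by
    have h1 := card_fib X Prod.fst _ hfib
    have h2 := mul_le_mul_of_nonneg_right himg2 hKA
    linarith
  have b3 : (#X : ℝ) ≤ K1 * K2 * ((1 + A) * (1 + A + B)) := by
    have h1 := card_fib X Prod.fst _ hfib
    have h2 := mul_le_mul_of_nonneg_right himg hKA
    linarith
  have hK10 : 0 ≤ K1 := by linarith
  have hK12 : 1 ≤ K1 * K2 := one_le_mul_of_one_le_of_one_le hK11 hK21
  have hK13 : K1 ≤ K1 * K2 := le_mul_of_one_le_right hK10 hK21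
  have hKK : 0 ≤ 165 * K1 * K2 := by
    have : 165 * K1 * K2 = 165 * (K1 * K2) := by ring
    rw [this]
    linarith
  have hst : step k Q V T = min (Q ^ 2) (min (Q * (1 + A)) ((1 + A) * (1 + A + B))) := rfl
  rw [hst, mul_min_of_nonneg _ _ hKK, mul_min_of_nonneg _ _ hKK]
  refine le_min (b1.trans ?_) (le_min (b2.trans ?_) (b3.trans ?_))
  · refine mul_le_mul_of_nonneg_right ?_ (sq_nonneg _)
    linarith
  · refine mul_le_mul_of_nonneg_right ?_ (mul_nonneg hQp.le (by linarith))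
    linarith
  · refine mul_le_mul_of_nonneg_right ?_ (mul_nonneg (by linarith) (by linarith))
    linarith

lemma step_mono (k : ℕ) (Q V T V' T' D : ℝ) (hQ : 0 < Q) (hV : 0 ≤ V) (hT : 0 ≤ T) (hD : 0 ≤ D)
    (hV0 : 0 ≤ V') (hT0 : 0 ≤ T')
    (hV' : V' ≤ V + D * Q ^ (k - 1)) (hT' : T' ≤ T + D * Q ^ (k - 2)) :
    step k Q V' T' ≤ (1 + 2 * D) ^ 2 * step k Q V T := by
  set A : ℝ := V / Q ^ (k - 1) with hA
  set B : ℝ := T / Q ^ (k - 2) with hB
  set A' : ℝ := V' / Q ^ (k - 1) with hA'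
  set B' : ℝ := T' / Q ^ (k - 2) with hB'
  have hA0 : 0 ≤ A := by positivity
  have hB0 : 0 ≤ B := by positivity
  have hA0' : 0 ≤ A' := by positivity
  have hB0' : 0 ≤ B' := by positivity
  have h1 : A' ≤ A + D := by
    rw [hA', div_le_iff₀ (by positivity), hA, add_mul, div_mul_cancel₀ _ (by positivity)]
    exact hV'
  have h2 : B' ≤ B + D := by
    rw [hB', div_le_iff₀ (by positivity), hB, add_mul, div_mul_cancel₀ _ (by positivity)]
    exact hT'
  have h3 : 1 + A' ≤ (1 + 2 * D) * (1 + A) := by nlinarith [mul_nonneg hD hA0]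
  have h4 : 1 + A' + B' ≤ (1 + 2 * D) * (1 + A + B) := by
    nlinarith [mul_nonneg hD hA0, mul_nonneg hD hB0]
  have hst : step k Q V T = min (Q ^ 2) (min (Q * (1 + A)) ((1 + A) * (1 + A + B))) := rfl
  have hst' : step k Q V' T' = min (Q ^ 2) (min (Q * (1 + A')) ((1 + A') * (1 + A' + B'))) := rfl
  have hD1 : 1 ≤ 1 + 2 * D := by linarith
  have hDs : 0 ≤ (1 + 2 * D) ^ 2 := sq_nonneg _
  have hD2 : 1 ≤ (1 + 2 * D) ^ 2 := one_le_pow₀ hD1
  have hD3 : 1 + 2 * D ≤ (1 + 2 * D) ^ 2 := by nlinarith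
  rw [hst, hst', mul_min_of_nonneg _ _ hDs, mul_min_of_nonneg _ _ hDs]
  refine min_le_min ?_ (min_le_min ?_ ?_)
  · exact le_mul_of_one_le_left (sq_nonneg _) hD2
  · calc Q * (1 + A') ≤ Q * ((1 + 2 * D) * (1 + A)) := mul_le_mul_of_nonneg_left h3 hQ.le
      _ = (1 + 2 * D) * (Q * (1 + A)) := by ring
      _ ≤ (1 + 2 * D) ^ 2 * (Q * (1 + A)) :=
        mul_le_mul_of_nonneg_right hD3 (mul_nonneg hQ.le (by linarith))
  · calc (1 + A') * (1 + A' + B') ≤ ((1 + 2 * D) * (1 + A)) * ((1 + 2 * D) * (1 + A + B)) :=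
        mul_le_mul h3 h4 (by linarith) (mul_nonneg (by linarith) (by linarith))
      _ = (1 + 2 * D) ^ 2 * ((1 + A) * (1 + A + B)) := by ring

lemma step_nonneg (k : ℕ) (Q V T : ℝ) (hQ : 0 ≤ Q) (hV : 0 ≤ V) (hT : 0 ≤ T) :
    0 ≤ step k Q V T :=
  le_min (by positivity) (le_min (by positivity) (by positivity))

/-- **COUNT** -/
theorem s_COUNT : S_COUNT := by
  classical
  intro k Φ Φ1 Φ2 hF hk R B n hB
  obtain ⟨K1, Q1, hK1, hQ1, hpair⟩ := s_PAIR k Φ Φ1 Φ2 hF hk R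
  obtain ⟨-, -, hF'⟩ := hF
  obtain ⟨c, C, Q0, γ, hc, hC, hQ0, hF'⟩ := hF' R
  induction n with
  | zero =>
    refine ⟨1, 1, le_rfl, le_rfl, ?_⟩
    intro θ _ Q _ _ V T c1 c2 _ _ X _ _
    rw [prod_range_zero, mul_one]
    have : #X ≤ 1 := card_le_one.2 fun a _ b _ => Subsingleton.elim a b
    exact_mod_cast this
  | succ n ih =>
    obtain ⟨K, Q2, hK, hQ2, ih⟩ := ih
    set D : ℝ := 2 * C * B with hD
    have hD0 : 0 ≤ D := by positivity
    refine ⟨K * ((1 + 2 * D) ^ 2) ^ n * K1, max (max Q0 Q1) Q2, ?_, ?_, ?_⟩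
    · have h1 : 1 ≤ ((1 + 2 * D) ^ 2) ^ n := one_le_pow₀ (one_le_pow₀ (by linarith))
      exact one_le_mul_of_one_le_of_one_le (one_le_mul_of_one_le_of_one_le hK h1) hK1
    · exact hQ2.trans (le_max_right _ _)
    intro θ hθ Q hQ hQQ V T c1 c2 hV hT X hX hX2
    have hQn := hQ n (Nat.lt_succ_self n)
    have hQn0 : Q0 ≤ Q n := (le_max_left _ _).trans ((le_max_left _ _).trans hQn)
    have hQn1 : Q1 ≤ Q n := (le_max_right _ _).trans ((le_max_left _ _).trans hQn)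
    have hQi : ∀ i < n + 1, Q2 ≤ Q i := fun i hi => (le_max_right _ _).trans (hQ i hi)
    have hQp : ∀ i < n + 1, 0 < Q i := fun i hi => by linarith [hQi i hi]
    have hQnp : 0 < Q n := hQp n (Nat.lt_succ_self n)
    obtain ⟨hbd, -⟩ := hF' θ hθ (Q n) hQn0
    -- the size of the last level
    have hlast : ∀ x ∈ X, |Φ θ (x (Fin.last n)).1 + Φ θ (x (Fin.last n)).2| ≤ 2 * C * Q n ^ k ∧
        |Φ1 θ (x (Fin.last n)).1 + Φ1 θ (x (Fin.last n)).2| ≤ 2 * C * Q n ^ (k - 1) := by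
      intro x hx
      obtain ⟨h1, h2, h3, h4⟩ := hX x hx (Fin.last n)
      rw [Fin.val_last] at h1 h2 h3 h4
      obtain ⟨a1, a2, -⟩ := hbd (x (Fin.last n)).1 h1 (by linarith)
      obtain ⟨b1, b2, -⟩ := hbd (x (Fin.last n)).2 (by linarith) h4
      exact ⟨(abs_add_le _ _).trans (by linarith), (abs_add_le _ _).trans (by linarith)⟩
    set V' : ℝ := V + 2 * C * Q n ^ k with hV'
    set T' : ℝ := T + 2 * C * Q n ^ (k - 1) with hT'
    have hV'0 : 0 ≤ V' := by positivity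
    have hT'0 : 0 ≤ T' := by positivity
    -- the image
    have himg : (#(X.image Fin.init) : ℝ) ≤ K * ∏ i ∈ range n, step k (Q i) V' T' := by
      refine ih θ hθ Q (fun i hi => hQi i (by omega))
        (fun i j hij hj => hQQ i j hij (by omega)) V' T' c1 c2 hV'0 hT'0 _ ?_ ?_
      · intro y hy i
        obtain ⟨x, hx, rfl⟩ := mem_image.1 hy
        exact hX x hx i.castSucc
      · intro y hy
        obtain ⟨x, hx, rfl⟩ := mem_image.1 hy
        obtain ⟨h1, h2⟩ := hX2 x hx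
        obtain ⟨h3, h4⟩ := hlast x hx
        rw [Fin.sum_univ_castSucc] at h1 h2
        have e1 : ∑ i : Fin n, (Φ θ ((Fin.init x : Fin n → ℕ × ℕ) i).1 +
            Φ θ ((Fin.init x : Fin n → ℕ × ℕ) i).2) =
            ∑ i : Fin n, (Φ θ (x i.castSucc).1 + Φ θ (x i.castSucc).2) := rfl
        have e2 : ∑ i : Fin n, (Φ1 θ ((Fin.init x : Fin n → ℕ × ℕ) i).1 +
            Φ1 θ ((Fin.init x : Fin n → ℕ × ℕ) i).2) =
            ∑ i : Fin n, (Φ1 θ (x i.castSucc).1 + Φ1 θ (x i.castSucc).2) := rfl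
        rw [e1, e2]
        rw [abs_le] at h1 h2 h3 h4
        constructor <;> rw [abs_le] <;> constructor <;> linarith
    -- the fibres
    have hfib : ∀ y ∈ X.image Fin.init,
        (#{x ∈ X | (Fin.init x : Fin n → ℕ × ℕ) = y} : ℝ) ≤ K1 * step k (Q n) V T := by
      intro y _
      have h1 : #{x ∈ X | (Fin.init x : Fin n → ℕ × ℕ) = y} =
          #({x ∈ X | (Fin.init x : Fin n → ℕ × ℕ) = y}.image fun x => x (Fin.last n)) := by
        rw [card_image_of_injOn]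
        intro x hx x' hx' h
        have hx1 := (mem_filter.1 (mem_coe.1 hx)).2
        have hx2 := (mem_filter.1 (mem_coe.1 hx')).2
        rw [← Fin.snoc_init_self x, ← Fin.snoc_init_self x', hx1, hx2]
        congr 1
      rw [h1]
      refine hpair θ hθ (Q n) hQn1 V T
        (c1 - ∑ i : Fin n, (Φ θ (y i).1 + Φ θ (y i).2))
        (c2 - ∑ i : Fin n, (Φ1 θ (y i).1 + Φ1 θ (y i).2)) hV hT _ ?_ ?_
      · intro z hz
        obtain ⟨x, hx, rfl⟩ := mem_image.1 hz
        have := hX x (mem_filter.1 hx).1 (Fin.last n)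
        rwa [Fin.val_last] at this
      · intro z hz
        obtain ⟨x, hx, rfl⟩ := mem_image.1 hz
        obtain ⟨hx, hxy⟩ := mem_filter.1 hx
        obtain ⟨h1, h2⟩ := hX2 x hx
        rw [Fin.sum_univ_castSucc] at h1 h2
        rw [← hxy]
        have e1 : ∑ i : Fin n, (Φ θ ((Fin.init x : Fin n → ℕ × ℕ) i).1 +
            Φ θ ((Fin.init x : Fin n → ℕ × ℕ) i).2) =
            ∑ i : Fin n, (Φ θ (x i.castSucc).1 + Φ θ (x i.castSucc).2) := rfl
        have e2 : ∑ i : Fin n, (Φ1 θ ((Fin.init x : Fin n → ℕ × ℕ) i).1 +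
            Φ1 θ ((Fin.init x : Fin n → ℕ × ℕ) i).2) =
            ∑ i : Fin n, (Φ1 θ (x i.castSucc).1 + Φ1 θ (x i.castSucc).2) := rfl
        rw [e1, e2]
        rw [abs_le] at h1 h2
        constructor <;> rw [abs_le] <;> constructor <;> linarith
    have hs0 : 0 ≤ step k (Q n) V T := step_nonneg k _ _ _ hQnp.le hV hT
    have h1 := card_fib X Fin.init _ hfib
    have h2 : ∏ i ∈ range n, step k (Q i) V' T' ≤
        ((1 + 2 * D) ^ 2) ^ n * ∏ i ∈ range n, step k (Q i) V T := by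
      have h3 : ((1 + 2 * D) ^ 2) ^ n = ∏ _i ∈ range n, (1 + 2 * D) ^ 2 := by
        rw [prod_const, card_range]
      rw [h3, ← prod_mul_distrib]
      refine prod_le_prod (fun i hi => ?_) fun i hi => ?_
      · have hi' := mem_range.1 hi
        exact step_nonneg k _ _ _ (hQp i (by omega)).le hV'0 hT'0
      · have hi' := mem_range.1 hi
        obtain ⟨q1, q2⟩ := hQQ i n hi' (Nat.lt_succ_self n)
        refine step_mono k (Q i) V T V' T' D (hQp i (by omega)) hV hT hD0 hV'0 hT'0 ?_ ?_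
        · rw [hV', hD, mul_assoc (2 * C) B]
          have := mul_le_mul_of_nonneg_left q1 (by positivity : 0 ≤ 2 * C)
          linarith
        · rw [hT', hD, mul_assoc (2 * C) B]
          have := mul_le_mul_of_nonneg_left q2 (by positivity : 0 ≤ 2 * C)
          linarith
    rw [prod_range_succ]
    calc (#X : ℝ) ≤ #(X.image Fin.init) * (K1 * step k (Q n) V T) := h1
      _ ≤ (K * ∏ i ∈ range n, step k (Q i) V' T') * (K1 * step k (Q n) V T) :=
          mul_le_mul_of_nonneg_right himg (mul_nonneg (by linarith) hs0)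
      _ ≤ (K * (((1 + 2 * D) ^ 2) ^ n * ∏ i ∈ range n, step k (Q i) V T)) *
            (K1 * step k (Q n) V T) := by
          refine mul_le_mul_of_nonneg_right ?_ (mul_nonneg (by linarith) hs0)
          exact mul_le_mul_of_nonneg_left h2 (by linarith)
      _ = _ := by ring

end Pool.Agent.L7h89.WB
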