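import Pool.Agent.L7h67.WB.Stm

/-!
# Project WB, parts NUM and NUMJ
-/

set_option autoImplicit false

namespace Pool.Agent.L7h89.WB

open Finset Pool.Agent.L7h67.WB

/-- **NUMJ** -/
theorem s_NUMJ : S_NUMJ := by
  intro k J hk hJ
  have hkr : (5 : ℝ) ≤ k := by exact_mod_cast hk
  have hJr : 7 * (k : ℝ) + 23 ≤ 10 * J := by exact_mod_cast hJ
  set n : ℝ := (k : ℝ) - 1 with hn
  have hn4 : 4 ≤ n := by linarith
  have hn0 : 0 < n := by linarith
  have e1 : ((k : ℝ) - 2) / n = 1 - 1 / n := by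
    field_simp
    linarith
  rw [e1]
  set y : ℝ := 1 / n with hy
  have hy0 : 0 < y := by positivity
  have hy4 : y ≤ 1 / 4 := one_div_le_one_div_of_le (by norm_num) hn4
  have h1 : 1 - y ≤ Real.exp (-y) := by
    have := Real.add_one_le_exp (-y)
    linarith
  have h2 : (1 - y) ^ J ≤ Real.exp (-(J * y)) := by
    calc (1 - y) ^ J ≤ Real.exp (-y) ^ J := pow_le_pow_left₀ (by linarith) h1 _
      _ = Real.exp (-(J * y)) := by
          rw [← Real.exp_nat_mul]
          ring_nf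
  have h3 : 7 / 10 + 3 * y ≤ J * y := by
    have h4 : (7 / 10 * n + 3) * y ≤ J * y := by
      refine mul_le_mul_of_nonneg_right ?_ hy0.le
      linarith
    have h5 : (7 / 10 * n + 3) * y = 7 / 10 + 3 * y := by
      rw [hy]
      field_simp
    linarith
  have h4 : Real.exp (-(J * y)) ≤ Real.exp (-(7 / 10)) * Real.exp (-(3 * y)) := by
    rw [← Real.exp_add]
    exact Real.exp_le_exp.2 (by linarith)
  have h5 : Real.exp (-(7 / 10)) ≤ 1 / 2 := by
    rw [Real.exp_neg, one_div]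
    refine inv_anti₀ (by norm_num) ?_
    rw [← Real.log_le_iff_le_exp (by norm_num)]
    have := Real.log_two_lt_d9
    linarith
  have h6 : 1 + 3 * y + (3 * y) ^ 2 / 2 ≤ Real.exp (3 * y) :=
    Real.quadratic_le_exp_of_nonneg (by positivity)
  have h7 : Real.exp (-(3 * y)) ≤ 1 / (1 + 3 * y + (3 * y) ^ 2 / 2) := by
    rw [Real.exp_neg, one_div]
    exact inv_anti₀ (by positivity) h6
  have h8 : Real.exp (-(7 / 10)) * Real.exp (-(3 * y)) ≤
      1 / 2 * (1 / (1 + 3 * y + (3 * y) ^ 2 / 2)) :=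
    mul_le_mul h5 h7 (Real.exp_pos _).le (by norm_num)
  have h9 : 1 / 2 * (1 / (1 + 3 * y + (3 * y) ^ 2 / 2)) ≤ 1 / 2 - y := by
    rw [mul_one_div, div_le_iff₀ (by positivity)]
    nlinarith [mul_nonneg hy0.le (sub_nonneg.2 hy4), mul_nonneg (mul_nonneg hy0.le hy0.le)
      (sub_nonneg.2 hy4)]
  linarith

lemma geo (ρ n x : ℝ) (hρ0 : 0 < ρ) (hρ1 : ρ ≤ 1) (hn : n * (1 - ρ) = 1) (J : ℕ) :
    ∃ j ≤ J, ∑ i ∈ range J, (if x ≤ ρ ^ i then ρ ^ i else 0) = n * (1 - ρ ^ j) ∧
      (j = J ∨ ρ ^ j < x) := by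
  induction J with
  | zero => exact ⟨0, le_rfl, by simp, Or.inl rfl⟩
  | succ J ih =>
    obtain ⟨j, hj, hs, hor⟩ := ih
    rw [sum_range_succ]
    by_cases hx : x ≤ ρ ^ J
    · have hjJ : j = J := by
        rcases hor with h | h
        · exact h
        · exfalso
          have := pow_le_pow_of_le_one hρ0.le hρ1 hj
          linarith
      refine ⟨J + 1, le_rfl, ?_, Or.inl rfl⟩
      rw [hs, if_pos hx, hjJ, pow_succ]
      linear_combination (-(ρ ^ J)) * hn
    · refine ⟨j, by omega, by rw [hs, if_neg hx, add_zero], ?_⟩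
      rcases hor with h | h
      · right
        rw [h]
        exact not_le.1 hx
      · exact Or.inr h

/-- the exponents -/
lemma expo (n t ρ : ℝ) (J : ℕ) (hn : 4 ≤ n) (hρ : ρ = 1 - 1 / n) (ht1 : (n - 1) / 2 ≤ t)
    (ht2 : t ≤ n - 1) (hJ : ρ ^ J ≤ 1 / 2 - 1 / n) :
    2 * (n - t) ≤ ∑ i ∈ range J, ((if t / (n - 1) ≤ ρ ^ i then ρ ^ i else 0) +
      (if (2 * t - n + 1) / n ≤ ρ ^ i then ρ ^ i else 0)) := by
  have hn0 : 0 < n := by linarith
  have hn1 : 0 < n - 1 := by linarith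
  have hinv : 1 / n ≤ 1 / 4 := one_div_le_one_div_of_le (by norm_num) hn
  have hinv0 : 0 < 1 / n := by positivity
  have hρ0 : 0 < ρ := by rw [hρ]; linarith
  have hρ1 : ρ ≤ 1 := by rw [hρ]; linarith
  have hnρ : n * (1 - ρ) = 1 := by
    rw [hρ]
    field_simp
    ring
  obtain ⟨j, hj, hs, hor⟩ := geo ρ n (t / (n - 1)) hρ0 hρ1 hnρ J
  obtain ⟨j', hj', hs', hor'⟩ := geo ρ n ((2 * t - n + 1) / n) hρ0 hρ1 hnρ J
  rw [sum_add_distrib, hs, hs']
  -- `a = ρ ^ j`
  have ha1 : ρ ^ j ≤ t / (n - 1) := by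
    rcases hor with h | h
    · rw [h]
      refine hJ.trans ?_
      rw [le_div_iff₀ hn1]
      nlinarith
    · exact h.le
  have hj1 : j ≠ 0 := by
    rintro rfl
    rcases hor with h | h
    · rw [← h, pow_zero] at hJ
      linarith
    · rw [pow_zero, lt_div_iff₀ hn1] at h
      linarith
  have ha2 : ρ ^ j ≤ ρ := by
    calc ρ ^ j ≤ ρ ^ 1 := pow_le_pow_of_le_one hρ0.le hρ1 (by omega)
      _ = ρ := pow_one _
  have hb : ρ ^ j' ≤ (2 * t - n + 1) / n ∨ ρ ^ j' ≤ 1 / 2 - 1 / n := by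
    rcases hor' with h | h
    · right
      rw [h]
      exact hJ
    · exact Or.inl h.le
  suffices h : ρ ^ j + ρ ^ j' ≤ 2 * t / n by
    have h1 : n * (ρ ^ j + ρ ^ j') ≤ n * (2 * t / n) := mul_le_mul_of_nonneg_left h hn0.le
    have h2 : n * (2 * t / n) = 2 * t := by field_simp
    linarith
  have hρn : ρ = (n - 1) / n := by
    rw [hρ]
    field_simp
  by_cases hc : t ≤ (n - 1) ^ 2 / n
  · rw [le_div_iff₀ hn0] at hc
    rcases hb with hb | hb
    · have : t / (n - 1) + (2 * t - n + 1) / n ≤ 2 * t / n := by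
        rw [div_add_div _ _ hn1.ne' hn0.ne', div_le_div_iff₀ (by positivity) hn0]
        nlinarith
      linarith
    · have : t / (n - 1) + (1 / 2 - 1 / n) ≤ 2 * t / n := by
        have e : 2 * t / n - (t / (n - 1) + (1 / 2 - 1 / n)) =
            (n - 2) * (t - (n - 1) / 2) / (n * (n - 1)) := by
          field_simp
          ring
        have h0 : 0 ≤ (n - 2) * (t - (n - 1) / 2) / (n * (n - 1)) := by
          apply div_nonneg
          · exact mul_nonneg (by linarith) (by linarith)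
          · positivity
        linarith
      linarith
  · push Not at hc
    rw [div_lt_iff₀ hn0] at hc
    rcases hb with hb | hb
    · have : ρ + (2 * t - n + 1) / n = 2 * t / n := by
        rw [hρn]
        field_simp
        ring
      linarith
    · have : ρ + (1 / 2 - 1 / n) ≤ 2 * t / n := by
        rw [hρ, le_div_iff₀ hn0]
        have e : (1 - 1 / n + (1 / 2 - 1 / n)) * n = 3 / 2 * n - 2 := by
          field_simp
          ring
        rw [e]
        nlinarith [sq_nonneg (n - 2)]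
      linarith

/-- one level -/
lemma level (k : ℕ) (hk : 5 ≤ k) (P L t r V : ℝ) (hP : 1 < P) (hL : 1 ≤ L) (hr0 : 0 < r)
    (hr1 : r ≤ 1) (hV0 : 0 ≤ V) (hV : V ≤ L * P ^ (2 * t - ((k : ℝ) - 1) + 1)) :
    step k (P ^ r) V (P ^ t) ≤ 6 * L ^ 2 * (P ^ r) ^ 2 *
      P ^ (-((if t / (((k : ℝ) - 1) - 1) ≤ r then r else 0) +
        (if (2 * t - ((k : ℝ) - 1) + 1) / ((k : ℝ) - 1) ≤ r then r else 0))) := by
  have hkr : (5 : ℝ) ≤ k := by exact_mod_cast hk
  have hP0 : 0 < P := by linarith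
  set n : ℝ := (k : ℝ) - 1 with hn
  have hn4 : 4 ≤ n := by linarith
  have hn0 : 0 < n := by linarith
  have hn1 : 0 < n - 1 := by linarith
  have ek1 : (((k - 1 : ℕ)) : ℝ) = n := by
    rw [Nat.cast_sub (by omega)]
    simp [hn]
  have ek2 : (((k - 2 : ℕ)) : ℝ) = n - 1 := by
    rw [Nat.cast_sub (by omega), hn]
    push_cast
    ring
  have eQ1 : (P ^ r) ^ (k - 1) = P ^ (r * n) := by
    rw [← Real.rpow_natCast, ← Real.rpow_mul hP0.le, ek1]
  have eQ2 : (P ^ r) ^ (k - 2) = P ^ (r * (n - 1)) := by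
    rw [← Real.rpow_natCast, ← Real.rpow_mul hP0.le, ek2]
  have eQQ : (P ^ r) ^ 2 = P ^ (r + r) := by
    rw [sq, Real.rpow_add hP0]
  have hQ0 : 0 < P ^ r := Real.rpow_pos_of_pos hP0 _
  have hA0 : 0 ≤ V / (P ^ r) ^ (k - 1) := by positivity
  have hA : (2 * t - n + 1) / n ≤ r → V / (P ^ r) ^ (k - 1) ≤ L := by
    intro h
    rw [div_le_iff₀ hn0] at h
    rw [div_le_iff₀ (by positivity), eQ1]
    refine hV.trans (mul_le_mul_of_nonneg_left ?_ (by linarith))
    exact Real.rpow_le_rpow_of_exponent_le hP.le h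
  have hB : t / (n - 1) ≤ r → P ^ t / (P ^ r) ^ (k - 2) ≤ 1 := by
    intro h
    rw [div_le_iff₀ hn1] at h
    rw [div_le_one (by positivity), eQ2]
    exact Real.rpow_le_rpow_of_exponent_le hP.le h
  have hL2 : L ≤ L ^ 2 := by nlinarith
  by_cases h1 : t / (n - 1) ≤ r
  · have h2 : (2 * t - n + 1) / n ≤ r := by
      rw [div_le_iff₀ hn0]
      rw [div_le_iff₀ hn1] at h1
      nlinarith
    rw [if_pos h1, if_pos h2, mul_assoc, eQQ, ← Real.rpow_add hP0, add_neg_cancel, Real.rpow_zero,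
      mul_one]
    refine (min_le_right _ _).trans ((min_le_right _ _).trans ?_)
    have hA' := hA h2
    have hB' := hB h1
    calc (1 + V / (P ^ r) ^ (k - 1)) * (1 + V / (P ^ r) ^ (k - 1) + P ^ t / (P ^ r) ^ (k - 2))
        ≤ (1 + L) * (1 + L + 1) := by gcongr
      _ ≤ 6 * L ^ 2 := by nlinarith
  · by_cases h2 : (2 * t - n + 1) / n ≤ r
    · rw [if_neg h1, if_pos h2, zero_add, mul_assoc, eQQ, ← Real.rpow_add hP0]
      have e : r + r + -r = r := by ring
      rw [e]
      refine (min_le_right _ _).trans ((min_le_left _ _).trans ?_)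
      have hA' := hA h2
      calc P ^ r * (1 + V / (P ^ r) ^ (k - 1)) ≤ P ^ r * (1 + L) := by gcongr
        _ ≤ P ^ r * (6 * L ^ 2) := by
            refine mul_le_mul_of_nonneg_left ?_ hQ0.le
            nlinarith
        _ = 6 * L ^ 2 * P ^ r := by ring
    · rw [if_neg h1, if_neg h2, add_zero, neg_zero, Real.rpow_zero, mul_one]
      refine (min_le_left _ _).trans ?_
      exact le_mul_of_one_le_left (by positivity) (by nlinarith)

/-- **NUM** -/
theorem s_NUM : S_NUM := by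
  intro k J hk hJ P L T V hP hL hT1 hT2 hV0 hV
  have hkr : (5 : ℝ) ≤ k := by exact_mod_cast hk
  have hP0 : 0 < P := by linarith
  have hT0 : 0 < T := lt_of_lt_of_le (Real.rpow_pos_of_pos hP0 _) hT1
  have hL0 : 0 < L := by linarith
  have hJ0 : J ≠ 0 := by
    rintro rfl
    rw [pow_zero] at hJ
    have : 0 < 1 / ((k : ℝ) - 1) := by
      apply one_div_pos.2
      linarith
    linarith
  have hL4 : 1 ≤ 4 * L ^ 2 := by nlinarith
  have hstep0 : ∀ Q : ℝ, 0 ≤ Q → 0 ≤ step k Q V T := by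
    intro Q hQ
    refine le_min (by positivity) (le_min (by positivity) (by positivity))
  have hPk : P ^ k = P ^ (k - 2) * P ^ 2 := by
    rw [← pow_add]
    congr 1
    omega
  by_cases hcase : P ^ (k - 2) ≤ T
  · -- first case
    have hvz : vz k P T = T := by
      rw [vz, min_eq_left, mul_one]
      rw [le_div_iff₀ (by positivity), one_mul]
      exact hcase
    rw [hvz] at hV ⊢
    obtain ⟨J', rfl⟩ : ∃ J', J = J' + 1 := ⟨J - 1, by omega⟩
    rw [prod_range_succ', prod_range_succ']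
    have hq0 : qs k P 0 = P := by rw [qs, pow_zero, Real.rpow_one]
    rw [hq0]
    have hqp : ∀ i, 0 ≤ qs k P i := fun i => by rw [qs]; positivity
    have h1 : ∏ i ∈ range J', step k (qs k P (i + 1)) V T ≤ ∏ i ∈ range J', qs k P (i + 1) ^ 2 :=
      prod_le_prod (fun i _ => hstep0 _ (hqp _)) fun i _ => min_le_left _ _
    have hP1 : P ^ (k - 2) ≤ P ^ (k - 1) := pow_le_pow_right₀ hP (by omega)
    have hA : V / P ^ (k - 1) ≤ L ^ 2 := by
      rw [div_le_iff₀ (by positivity)]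
      calc V ≤ L * T := hV
        _ ≤ L * (L * P ^ (k - 1)) := mul_le_mul_of_nonneg_left hT2 hL0.le
        _ = L ^ 2 * P ^ (k - 1) := by ring
    set τ : ℝ := T / P ^ (k - 2) with hτ
    have hτ1 : 1 ≤ τ := by
      rw [hτ, le_div_iff₀ (by positivity), one_mul]
      exact hcase
    have hA2 : V / P ^ (k - 1) ≤ L * τ := by
      calc V / P ^ (k - 1) ≤ (L * T) / P ^ (k - 2) := by gcongr
        _ = L * τ := by rw [hτ, mul_div_assoc]
    have hA0 : 0 ≤ V / P ^ (k - 1) := by positivity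
    have h2 : step k P V T ≤ 6 * L ^ 3 * τ := by
      refine (min_le_right _ _).trans ((min_le_right _ _).trans ?_)
      calc (1 + V / P ^ (k - 1)) * (1 + V / P ^ (k - 1) + T / P ^ (k - 2))
          ≤ (1 + L ^ 2) * (τ + L * τ + τ) := by gcongr
        _ ≤ (2 * L ^ 2) * (3 * L * τ) := by
            have : 1 ≤ L ^ 2 := one_le_pow₀ hL
            gcongr
            · linarith
            · nlinarith
        _ = 6 * L ^ 3 * τ := by ring
    have h3 : (16 * L ^ 4 : ℝ) ≤ (4 * L ^ 2) ^ (2 * (J' + 1)) := by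
      calc (16 * L ^ 4 : ℝ) = (4 * L ^ 2) ^ 2 := by ring
        _ ≤ _ := pow_le_pow_right₀ hL4 (by omega)
    have h4 : 6 * L ^ 3 ≤ (4 * L ^ 2) ^ (2 * (J' + 1)) := by
      refine le_trans ?_ h3
      have : L ^ 3 ≤ L ^ 4 := pow_le_pow_right₀ hL (by norm_num)
      have h0 : 0 ≤ L ^ 3 := by positivity
      linarith
    have hprod0 : 0 ≤ ∏ i ∈ range J', qs k P (i + 1) ^ 2 := prod_nonneg fun i _ => sq_nonneg _
    have e1 : P ^ 2 * (T / P ^ k) = τ := by
      rw [hτ, hPk]
      field_simp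
    calc (∏ i ∈ range J', step k (qs k P (i + 1)) V T) * step k P V T
        ≤ (∏ i ∈ range J', qs k P (i + 1) ^ 2) * (6 * L ^ 3 * τ) :=
          mul_le_mul h1 h2 (hstep0 _ hP0.le) hprod0
      _ ≤ (∏ i ∈ range J', qs k P (i + 1) ^ 2) * ((4 * L ^ 2) ^ (2 * (J' + 1)) * τ) := by
          gcongr
      _ = (4 * L ^ 2) ^ (2 * (J' + 1)) * ((∏ i ∈ range J', qs k P (i + 1) ^ 2) * P ^ 2) *
            (T / P ^ k) := by
          rw [← e1]
          ring
  · -- second case
    push Not at hcase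
    have hP1 : 1 < P := by
      rcases eq_or_lt_of_le hP with h | h
      · exfalso
        rw [← h, one_pow] at hcase
        rw [← h, Real.one_rpow] at hT1
        linarith
      · exact h
    set n : ℝ := (k : ℝ) - 1 with hn
    have hn4 : 4 ≤ n := by linarith
    have hn0 : 0 < n := by linarith
    have hn1 : 0 < n - 1 := by linarith
    have hk2 : (k : ℝ) - 2 = n - 1 := by rw [hn]; ring
    have ek2 : (((k - 2 : ℕ)) : ℝ) = n - 1 := by
      rw [Nat.cast_sub (by omega), hn]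
      push_cast
      ring
    have eP2 : P ^ (k - 2) = P ^ (n - 1) := by
      rw [← ek2, Real.rpow_natCast]
    have ePk : P ^ k = P ^ (n + 1) := by
      rw [← Real.rpow_natCast]
      congr 1
      rw [hn]
      ring
    set t : ℝ := Real.logb P T with ht
    have hTt : T = P ^ t := (Real.rpow_logb hP0 hP1.ne' hT0).symm
    have ht1 : (n - 1) / 2 ≤ t := by
      rw [hk2, hTt] at hT1
      exact (Real.rpow_le_rpow_left_iff hP1).1 hT1
    have ht2 : t ≤ n - 1 := by
      rw [eP2, hTt] at hcase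
      exact ((Real.rpow_lt_rpow_left_iff hP1).1 hcase).le
    have hvz : vz k P T = P ^ (2 * t - n + 1) := by
      rw [vz, min_eq_right, hTt, eP2, ← Real.rpow_sub hP0, ← Real.rpow_add hP0]
      · congr 1
        ring
      · rw [div_le_one (by positivity)]
        exact hcase.le
    rw [hvz] at hV
    set ρ : ℝ := ((k : ℝ) - 2) / n with hρ
    have hρ' : ρ = 1 - 1 / n := by
      rw [hρ, hk2]
      field_simp
    have hinv : 1 / n ≤ 1 / 4 := one_div_le_one_div_of_le (by norm_num) hn4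
    have hinv0 : 0 < 1 / n := by positivity
    have hρ0 : 0 < ρ := by rw [hρ']; linarith
    have hρ1 : ρ ≤ 1 := by rw [hρ']; linarith
    have hsum := expo n t ρ J hn4 hρ' ht1 ht2 hJ
    set s : ℕ → ℝ := fun i => (if t / (n - 1) ≤ ρ ^ i then ρ ^ i else 0) +
      (if (2 * t - n + 1) / n ≤ ρ ^ i then ρ ^ i else 0) with hs
    have hlev : ∀ i ∈ range J, step k (qs k P i) V T ≤
        6 * L ^ 2 * (qs k P i) ^ 2 * P ^ (-(s i)) := by
      intro i _
      have h := level k hk P L t (ρ ^ i) V hP1 hL (pow_pos hρ0 _) (pow_le_one₀ hρ0.le hρ1) hV0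
        (by rw [← hn]; exact hV)
      rw [← hTt, ← hn] at h
      exact h
    have h1 : ∏ i ∈ range J, step k (qs k P i) V T ≤
        ∏ i ∈ range J, (6 * L ^ 2 * (qs k P i) ^ 2 * P ^ (-(s i))) :=
      prod_le_prod (fun i _ => hstep0 _ (by rw [qs]; positivity)) hlev
    refine h1.trans ?_
    rw [prod_mul_distrib, prod_mul_distrib, prod_const, card_range,
      ← Real.rpow_sum_of_pos hP0, sum_neg_distrib]
    have h2 : P ^ (-∑ i ∈ range J, s i) ≤ P ^ (-(2 * (n - t))) :=
      Real.rpow_le_rpow_of_exponent_le hP (neg_le_neg hsum)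
    have h3 : vz k P T / P ^ k = P ^ (-(2 * (n - t))) := by
      rw [hvz, ePk, ← Real.rpow_sub hP0]
      congr 1
      ring
    rw [h3]
    have h4 : (6 * L ^ 2) ^ J ≤ (4 * L ^ 2) ^ (2 * J) := by
      rw [pow_mul]
      refine pow_le_pow_left₀ (by positivity) ?_ _
      have : 1 ≤ L ^ 2 := one_le_pow₀ hL
      nlinarith
    have h5 : 0 ≤ ∏ i ∈ range J, qs k P i ^ 2 := prod_nonneg fun i _ => sq_nonneg _
    have h6 : 0 < P ^ (-(2 * (n - t))) := Real.rpow_pos_of_pos hP0 _
    exact mul_le_mul (mul_le_mul_of_nonneg_right h4 h5) h2 (Real.rpow_pos_of_pos hP0 _).le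
      (by positivity)

end Pool.Agent.L7h89.WB
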